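import Pool.Agent.H95.FH.Defs
import Pool.Agent.H87.FG.CASE2

open MvPolynomial

namespace H87.FH
open H95.FG H95.FH

theorem span_perp {a b z : Fin 3 → ℂ} (hz : z ≠ 0) (ha : ∑ k, a k * z k = 0)
    (hb : ∑ k, b k * z k = 0) (hli : LinearIndependent ℂ ![a, b]) {Y : Fin 3 → ℂ}
    (hY : dt z Y = 0) : ∃ s t : ℂ, Y = s • a + t • b := by
  classical
  let φ : (Fin 3 → ℂ) →ₗ[ℂ] ℂ :=
    { toFun := fun x => ∑ k, x k * z k
      map_add' := fun x y => by
        rw [← Finset.sum_add_distrib]
        apply Finset.sum_congr rfl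
        intro k _
        rw [Pi.add_apply]
        ring
      map_smul' := fun c x => by
        rw [RingHom.id_apply, smul_eq_mul, Finset.mul_sum]
        apply Finset.sum_congr rfl
        intro k _
        rw [Pi.smul_apply, smul_eq_mul]
        ring }
  have hφ : LinearMap.range φ = ⊤ := by
    obtain ⟨k, hk⟩ : ∃ k, z k ≠ 0 := by
      by_contra hcon
      push Not at hcon
      exact hz (funext hcon)
    rw [eq_top_iff]
    intro c _
    refine ⟨Pi.single k (c / z k), ?_⟩
    change ∑ l, (Pi.single k (c / z k) : Fin 3 → ℂ) l * z l = c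
    rw [Finset.sum_eq_single k]
    · rw [Pi.single_eq_same]
      field_simp
    · intro l _ hl
      rw [Pi.single_eq_of_ne hl, zero_mul]
    · intro h
      exact absurd (Finset.mem_univ k) h
  have h1 := LinearMap.finrank_range_add_finrank_ker φ
  rw [hφ, finrank_top, Module.finrank_self, Module.finrank_fintype_fun_eq_card,
    Fintype.card_fin] at h1
  have h2 : Module.finrank ℂ (Submodule.span ℂ (Set.range ![a, b])) = 2 := by
    rw [finrank_span_eq_card hli, Fintype.card_fin]
  have h3 : Submodule.span ℂ (Set.range ![a, b]) ≤ LinearMap.ker φ := by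
    rw [Submodule.span_le]
    rintro _ ⟨i, rfl⟩
    rw [SetLike.mem_coe, LinearMap.mem_ker]
    fin_cases i
    · exact ha
    · exact hb
  have h4 : Submodule.span ℂ (Set.range ![a, b]) = LinearMap.ker φ := by
    apply Submodule.eq_of_le_of_finrank_le h3
    omega
  have h5 : Y ∈ Submodule.span ℂ (Set.range ![a, b]) := by
    rw [h4, LinearMap.mem_ker]
    change ∑ k, Y k * z k = 0
    rw [← hY]
    unfold dt
    apply Finset.sum_congr rfl
    intro k _
    ring
  rw [Submodule.mem_span_range_iff_exists_fun] at h5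
  obtain ⟨c, hc⟩ := h5
  refine ⟨c 0, c 1, ?_⟩
  rw [← hc, Fin.sum_univ_two]
  rfl

theorem normsq_ne {z : Fin 3 → ℂ} (hz : z ≠ 0) : ∑ k, cv z k * z k ≠ 0 := by
  intro h
  apply hz
  have e : ∑ k, cv z k * z k = ((∑ k, Complex.normSq (z k) : ℝ) : ℂ) := by
    push_cast
    apply Finset.sum_congr rfl
    intro k _
    unfold cv
    rw [Complex.normSq_eq_conj_mul_self]
  rw [e] at h
  have h1 : ∑ k, Complex.normSq (z k) = 0 := by exact_mod_cast h
  rw [Finset.sum_eq_zero_iff_of_nonneg (fun k _ => Complex.normSq_nonneg _)] at h1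
  funext k
  exact Complex.normSq_eq_zero.mp (h1 k (Finset.mem_univ k))

theorem t_GOOD (hZFP : S_ZFP) (hNV : S_NV) (hZFLI : S_ZFLI) (hOPEN : S_OPEN)
    (hSWAP : S_SWAP) : S_GOOD := by
  classical
  intro m d p A hc
  obtain ⟨hc', hAs, -, -, -, -, -⟩ := hSWAP m d p A hc
  obtain ⟨a0, b0, hab0⟩ := hZFP 3 m (d + 1) (cp p) (by norm_num) (by omega) hc'.hom hc'.gcd
  obtain ⟨a, b, z, hZF, hz, haz, hbz, s, t, hst⟩ := hNV 3 m (d + 1) (cp p) (sw A) a0 b0
    (by norm_num) hc'.hm1 (by have := hc'.hm; omega) (by omega) hc'.sys hc'.hom hab0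
  rw [hAs] at hst
  have hN := normsq_ne hz
  have hm1 := hc.hm1
  let j0 : Fin m := ⟨0, by omega⟩
  have hp0 : p j0 ≠ 0 := hc.sys.1.ne_zero j0
  obtain ⟨y, hy⟩ : ∃ y, eval y (p j0) ≠ 0 := by
    by_contra hcon
    push Not at hcon
    apply hp0
    apply MvPolynomial.funext
    intro x
    rw [hcon x, map_zero]
  set f : ℂ → (Fin 3 → ℂ) := fun τ => z + τ • (y - z) with hf
  have hfc : Continuous f := by
    rw [hf]
    exact continuous_const.add (continuous_id.smul continuous_const)
  have hf0 : f 0 = z := by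
    rw [hf]
    simp
  set F : Polynomial ℂ := aeval (fun k => Polynomial.C (z k) +
    Polynomial.C ((y - z) k) * Polynomial.X) (p j0) with hF
  have hFe : ∀ τ, F.eval τ = eval (f τ) (p j0) := by
    intro τ
    rw [hF, H87.FG.eval_aeval]
    congr 2
    funext k
    simp only [hf, Polynomial.eval_add, Polynomial.eval_C, Polynomial.eval_mul,
      Polynomial.eval_X, Pi.add_apply, Pi.smul_apply, smul_eq_mul]
    ring
  have hF0 : F ≠ 0 := by
    intro h
    have h1 := hFe 1
    rw [h, Polynomial.eval_zero] at h1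
    apply hy
    rw [h1, hf]
    congr 2
    funext k
    simp
  -- the frame
  set den : ℂ → ℂ := fun τ => ∑ k, cv z k * f τ k with hden
  have hdenc : Continuous den := by
    rw [hden]
    apply continuous_finsetSum
    intro k _
    exact continuous_const.mul ((continuous_apply k).comp hfc)
  have hden0 : den 0 ≠ 0 := by
    rw [hden]
    simp only [hf0]
    exact hN
  have frame : ∀ v : Fin 3 → ℂ, ∑ k, v k * z k = 0 → ∃ g : ℂ → (Fin 3 → ℂ),
      ContinuousAt g 0 ∧ g 0 = v ∧ ∀ τ, den τ ≠ 0 → ∑ k, g τ k * f τ k = 0 := by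
    intro v hv
    refine ⟨fun τ => v - ((∑ k, v k * f τ k) / den τ) • cv z, ?_, ?_, ?_⟩
    · apply ContinuousAt.sub continuousAt_const
      have hq : ContinuousAt (fun τ => (∑ k, v k * f τ k) / den τ) 0 := by
        apply ContinuousAt.div
        · apply Continuous.continuousAt
          apply continuous_finsetSum
          intro k _
          exact continuous_const.mul ((continuous_apply k).comp hfc)
        · exact hdenc.continuousAt
        · exact hden0
      have hcz : ContinuousAt (fun _ : ℂ => cv z) 0 := continuousAt_const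
      exact hq.smul hcz
    · simp only [hf0, hv, zero_div, zero_smul, sub_zero]
    · intro τ hτ
      have e : ∑ k, (v - ((∑ k, v k * f τ k) / den τ) • cv z) k * f τ k =
          (∑ k, v k * f τ k) - ((∑ k, v k * f τ k) / den τ) * ∑ k, cv z k * f τ k := by
        rw [Finset.mul_sum, ← Finset.sum_sub_distrib]
        apply Finset.sum_congr rfl
        intro k _
        rw [Pi.sub_apply, Pi.smul_apply, smul_eq_mul]
        ring
      rw [e]
      change _ - _ / den τ * den τ = 0
      field_simp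
      ring
  obtain ⟨ga, hga1, hga2, hga3⟩ := frame a haz
  obtain ⟨gb, hgb1, hgb2, hgb3⟩ := frame b hbz
  obtain ⟨ε, hε, hopen⟩ := hOPEN 3 m (d + 1) (cp p) a b (by omega) hc'.hom hZF
  have ev1 : ∀ᶠ τ in nhds (0 : ℂ), ‖ga τ - a‖ < ε := by
    have h1 := (hga1.sub (continuousAt_const : ContinuousAt (fun _ : ℂ => a) 0)).norm
    have h2 : ‖ga 0 - a‖ < ε := by
      rw [hga2, sub_self, norm_zero]
      exact hε
    exact h1.eventually_lt continuousAt_const h2
  have ev2 : ∀ᶠ τ in nhds (0 : ℂ), ‖gb τ - b‖ < ε := by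
    have h1 := (hgb1.sub (continuousAt_const : ContinuousAt (fun _ : ℂ => b) 0)).norm
    have h2 : ‖gb 0 - b‖ < ε := by
      rw [hgb2, sub_self, norm_zero]
      exact hε
    exact h1.eventually_lt continuousAt_const h2
  have ev3 : ∀ᶠ τ in nhds (0 : ℂ), den τ ≠ 0 := hdenc.continuousAt.eventually_ne hden0
  have ev4 : ∀ᶠ τ in nhds (0 : ℂ), AA A (f τ) (s • ga τ + t • gb τ) ≠ 0 := by
    have h1 : ContinuousAt (fun τ => AA A (f τ) (s • ga τ + t • gb τ)) 0 := by
      unfold AA
      have h2 : ContinuousAt (fun τ => (Sum.elim (f τ) (s • ga τ + t • gb τ) :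
          Fin 3 ⊕ Fin 3 → ℂ)) 0 := by
        rw [continuousAt_pi]
        intro i
        rcases i with k | k
        · exact ((continuous_apply k).comp hfc).continuousAt
        · exact (continuousAt_pi.mp ((hga1.const_smul s).add (hgb1.const_smul t))) k
      exact (MvPolynomial.continuous_eval A).continuousAt.comp h2
    apply h1.eventually_ne
    rw [hf0, hga2, hgb2]
    exact hst
  have hall := (ev1.and (ev2.and (ev3.and ev4)))
  have hinf := infinite_of_mem_nhds (0 : ℂ) hall
  obtain ⟨τ, hτ, hτF⟩ : ∃ τ, (‖ga τ - a‖ < ε ∧ ‖gb τ - b‖ < ε ∧ den τ ≠ 0 ∧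
      AA A (f τ) (s • ga τ + t • gb τ) ≠ 0) ∧ F.eval τ ≠ 0 := by
    by_contra hcon
    push Not at hcon
    apply hF0
    apply H87.FG.poly_ext_inf hinf
    intro x hx
    rw [Polynomial.eval_zero]
    exact hcon x hx
  obtain ⟨e1, e2, e3, e4⟩ := hτ
  have hZF' := hopen (ga τ) (gb τ) e1 e2
  have hli := hZFLI 3 m (d + 1) (cp p) (ga τ) (gb τ) (by omega) hc'.hom hZF'
  have hfτ : f τ ≠ 0 := by
    intro h
    apply e3
    rw [hden]
    simp [h]
  refine ⟨f τ, ?_, ?_, ?_⟩
  · intro h
    apply hτF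
    rw [hFe]
    exact congrFun h j0
  · intro Y hY hYd hev
    obtain ⟨s', t', rfl⟩ := span_perp hfτ (hga3 τ e3) (hgb3 τ e3) hli hYd
    apply hZF' s' t' _ hev
    by_contra hcon
    push Not at hcon
    apply hY
    rw [hcon.1, hcon.2, zero_smul, zero_smul, add_zero]
  · refine ⟨s • ga τ + t • gb τ, ?_, e4⟩
    have h1 := hga3 τ e3
    have h2 := hgb3 τ e3
    have e : dt (f τ) (s • ga τ + t • gb τ) = s * ∑ k, ga τ k * f τ k +
        t * ∑ k, gb τ k * f τ k := by
      unfold dt
      rw [Finset.mul_sum, Finset.mul_sum, ← Finset.sum_add_distrib]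
      apply Finset.sum_congr rfl
      intro k _
      rw [Pi.add_apply, Pi.smul_apply, Pi.smul_apply, smul_eq_mul, smul_eq_mul]
      ring
    rw [e, h1, h2]
    ring

end H87.FH
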